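import Pool.Agent.BND.FI3

/-!
Long circuits generate the cycle space of a 3-connected graph, with a free length parameter.
-/

set_option autoImplicit false

namespace Pool.Agent.Results.MP_60f890_co.LongCircuits

open Pool.Agent.BND

open Classical in
/-- Every even edge set is a sum of circuits of length at least `2 d - 1`, for all `d`. -/
theorem even_all {V : Type} [Fintype V] {G : SimpleGraph V} {d : ℕ} (h3 : K3 G)
    (hdeg : ∀ x, d ≤ (nb G x).card) (hcard : 2 * d ≤ Fintype.card V) (C : Finset (Sym2 V))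
    (hC : ∀ e ∈ C, e ∈ G.edgeSet) (heven : ∀ x : V, Even (C.filter (fun e => x ∈ e)).card) :
    ∃ F : Finset (Finset (Sym2 V)), (∀ D ∈ F, D ∈ LongC G d) ∧
      ∀ e : Sym2 V, e ∈ C ↔ Odd (F.filter (fun D => e ∈ D)).card := by
  rcases Nat.lt_or_ge 2 d with hd | hd
  · exact fin_even h3 hd hdeg hcard C hC heven
  suffices hmain : ∀ φ : Sym2 V → ZMod 2, (∀ D ∈ LongC G d, ∑ e ∈ D, φ e = 0) →
      ∑ e ∈ C, φ e = 0 by
    obtain ⟨F, h1, h3⟩ := du_span (LongC G d) C hmain
    refine ⟨F, h1, fun e => ?_⟩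
    convert h3 e
  intro φ hφ
  have hconn : Conn G (Finset.univ : Finset V) := by
    have h1 := h3.2 ∅ (by simp)
    rwa [Finset.compl_empty] at h1
  have hsym : ∀ x y, (fun x y => φ s(x, y)) x y = (fun x y => φ s(x, y)) y x := fun x y => by
    simp only [Sym2.eq_swap]
  have hz : ∀ l, CycL G l → (∀ z ∈ l, z ∈ (Finset.univ : Finset V)) →
      csg (fun x y => φ s(x, y)) l = 0 := by
    intro l hl _
    rw [du_sum hl φ]
    have := hl.1
    exact hφ (ced l) ⟨l, hl, by omega, rfl⟩
  obtain ⟨lam, hlam⟩ := bal_pot (G := G) (ε := fun x y => φ s(x, y)) hsym hconn hz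
  exact du_even C hC heven φ lam fun x y hxy =>
    hlam x (Finset.mem_univ x) y (Finset.mem_univ y) hxy

open Classical in
/-- Every circuit is a sum of an odd number of circuits of length at least `2 d - 1`, for all `d`. -/
theorem odd_all {V : Type} [Fintype V] {G : SimpleGraph V} {d : ℕ} (h3 : K3 G)
    (hdeg : ∀ x, d ≤ (nb G x).card) (hcard : 2 * d ≤ Fintype.card V) {l₀ : List V}
    (hl₀ : CycL G l₀) :
    ∃ F : Finset (Finset (Sym2 V)), (∀ D ∈ F, D ∈ LongC G d) ∧ Odd F.card ∧
      ∀ e : Sym2 V, e ∈ ced l₀ ↔ Odd (F.filter (fun D => e ∈ D)).card := by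
  rcases Nat.lt_or_ge 2 d with hd | hd
  · exact fin_odd h3 hd hdeg hcard hl₀
  refine ⟨{ced l₀}, ?_, by simp, ?_⟩
  · intro D hD
    rw [Finset.mem_singleton] at hD
    subst hD
    have := hl₀.1
    exact ⟨l₀, hl₀, by omega, rfl⟩
  · intro e
    rw [Finset.filter_singleton]
    by_cases he : e ∈ ced l₀
    · simp [he]
    · simp [he]

/-- Let `G` be a finite simple 3-connected graph (at least four vertices, connected after the deletion of any
at most two vertices) and `d` an integer with `d ≤ δ(G)` and `2 d ≤ |V|`.  Then (a) every set `C` of edges in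
which every vertex has even degree is the sum (symmetric difference) of a finite family `F` of circuits of `G`
of length at least `2 d - 1`, and (b) every circuit of `G` is the sum of an odd number of distinct circuits of
`G` of length at least `2 d - 1`.  (For `δ(G) ≤ |V| / 2` one may take `d = δ(G)`.) -/
theorem result : ∀ (V : Type) [Fintype V] [DecidableEq V] (G : SimpleGraph V) [DecidableRel G.Adj]
    (d : ℕ), 4 ≤ Fintype.card V →
    (∀ S : Finset V, S.card ≤ 2 → (G.induce ((↑S : Set V)ᶜ)).Connected) →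
    d ≤ G.minDegree → 2 * d ≤ Fintype.card V →
    (∀ C : Finset (Sym2 V), (↑C : Set (Sym2 V)) ⊆ G.edgeSet →
      (∀ v : V, Even (C.filter (fun e => v ∈ e)).card) →
      ∃ F : Finset (Finset (Sym2 V)),
        (∀ D ∈ F, ∃ (u : V) (p : G.Walk u u),
          p.IsCycle ∧ p.edges.toFinset = D ∧ 2 * d ≤ p.length + 1) ∧
        ∀ e : Sym2 V, e ∈ C ↔ Odd (F.filter (fun D => e ∈ D)).card) ∧
    (∀ (w : V) (q : G.Walk w w), q.IsCycle →
      ∃ F : Finset (Finset (Sym2 V)),
        (∀ D ∈ F, ∃ (u : V) (p : G.Walk u u),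
          p.IsCycle ∧ p.edges.toFinset = D ∧ 2 * d ≤ p.length + 1) ∧
        Odd F.card ∧
        ∀ e : Sym2 V, e ∈ q.edges.toFinset ↔ Odd (F.filter (fun D => e ∈ D)).card) := by
  intro V _ _ G _ d h4 hc hd hm
  have h3 := fin_k3 G h4 hc
  have hdeg : ∀ x, d ≤ (nb G x).card := by
    intro x
    rw [fi3_deg]
    exact hd.trans (G.minDegree_le_degree x)
  refine ⟨?_, ?_⟩
  · intro C hC hev
    obtain ⟨F, hF1, hF2⟩ := even_all h3 hdeg hm C (fun e he => hC (by simpa using he))
      (fun x => by convert hev x)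
    refine ⟨F, ?_, ?_⟩
    · intro D hD
      obtain ⟨u, p, hp, hpe, hlen⟩ := fi3_a (hF1 D hD)
      refine ⟨u, p, hp, ?_, hlen⟩
      ext e
      rw [List.mem_toFinset]
      exact hpe e
    · intro e
      rw [hF2 e]
      constructor <;> intro h <;> convert h
  · intro w q hq
    obtain ⟨l, hl, hll, hle⟩ := du_walk q hq
    obtain ⟨F, hF1, hF0, hF2⟩ := odd_all h3 hdeg hm hl
    refine ⟨F, ?_, hF0, ?_⟩
    · intro D hD
      obtain ⟨u, p, hp, hpe, hlen⟩ := fi3_a (hF1 D hD)
      refine ⟨u, p, hp, ?_, hlen⟩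
      ext e
      rw [List.mem_toFinset]
      exact hpe e
    · intro e
      rw [List.mem_toFinset, ← hle e, hF2 e]
      constructor <;> intro h <;> convert h

end Pool.Agent.Results.MP_60f890_co.LongCircuits
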